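import Pool.Agent.Lib.MP_c99423_co.Iter

/-!
# Solutions of the no-three-in-line problem with the symmetry of a rectangle are rare
-/

set_option autoImplicit false

namespace Pool.Agent.Results.MP_c99423_co.RareSolutions

open Pool.Agent.Lib.MPc99423

/-- For odd `n` no solution has the symmetry of a rectangle, and for every `n` the number of the
solutions with this symmetry is at most `exp (3 n - n √(log n) / 4000) (n/2)!`. -/
theorem result (n : ℕ) :
    (Odd n → ∀ S : Finset (ℤ × ℤ), ¬ RectSol n S) ∧
      {S : Finset (ℤ × ℤ) | RectSol n S}.Finite ∧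
        ({S : Finset (ℤ × ℤ) | RectSol n S}.ncard : ℝ) ≤
          Real.exp ((3 - √(Real.log n) / 4000) * n) * ((n / 2).factorial : ℝ) := by
  classical
  have hfin : {S : Finset (ℤ × ℤ) | RectSol n S}.Finite := by
    refine Set.Finite.subset (Gr n).powerset.finite_toSet ?_
    intro S hS
    rw [Finset.mem_coe, Finset.mem_powerset]
    intro p hp
    have h := hS.1 p hp
    rw [mem_Gr]
    exact ⟨⟨h.1, h.2.1⟩, h.2.2.1, h.2.2.2⟩
  refine ⟨fun hn S => not_odd hn S, hfin, ?_⟩
  rw [Set.ncard_eq_toFinset_card _ hfin]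
  refine Gen.rare3 n _ ?_
  intro S hS
  rw [Set.Finite.mem_toFinset] at hS
  exact hS

end Pool.Agent.Results.MP_c99423_co.RareSolutions
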